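import Pool.Agent.P.MP_6e3a57_lc.H.Bridge

namespace Pool.Agent.Results.MP_6e3a57_lc.InfiniteFamily

open Pool.Agent.P.MP_6e3a57_lc Pool.Agent.P.MP_6e3a57_lc.H

/-- There are infinitely many finitely presented metabelian lattice-ordered groups that are
pairwise elementarily equivalent and pairwise not isomorphic. -/
theorem result : ∃ Γ : ℕ → LG, (∀ n, FinPres (Γ n) ∧ derivedSeries (Γ n).α 2 = ⊥) ∧
    ∀ m n, Lg.ElementarilyEquivalent (Γ m).α (Γ n).α ∧
      (m ≠ n → IsEmpty ((Γ m).α ≃*o (Γ n).α)) := by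
  obtain ⟨u, h1, h2, h3⟩ := exists_fam
  refine ⟨fun n => lgOf (u n), fun n => ⟨finPres_lgOf _ (h1 n), metab _⟩, fun m n =>
    ⟨equiv_of ((half_RG (u m) (u n)).equiv (by rw [RG_swap]; exact half_RG _ _) (h3 m n)),
      fun h => ⟨fun e => h ?_⟩⟩⟩
  have a1 := inv_le e (h2 m).1 (h2 n).1 (h2 m).2
  have a2 := inv_le (OrderMonoidIso.symm e) (h2 n).1 (h2 m).1 (h2 n).2
  rw [abs_of_nonpos (by omega), abs_of_nonpos (by omega)] at a1 a2
  omega

end Pool.Agent.Results.MP_6e3a57_lc.InfiniteFamily
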